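import Pool.Agent.Lib.MP_eb34a4_co.SC.Main

/-! Every norm on a real vector space of dimension `d` has a unit distance graph of chromatic
number at least `d + 1`; more precisely, in every proper colouring with finitely many colours
(no measurability assumed) some point lies in the closure of `d + 1` colour classes. -/

namespace Pool.Agent.Results.MP_eb34a4_co.EveryNormLower

theorem result (E : Type) [NormedAddCommGroup E] [NormedSpace ℝ E] [FiniteDimensional ℝ E]
    (k : ℕ) (c : E → Fin k) (hc : ∀ x y : E, ‖x - y‖ = 1 → c x ≠ c y) :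
    ∃ (p : E) (T : Finset (Fin k)), T.card = Module.finrank ℝ E + 1 ∧
      ∀ i ∈ T, p ∈ closure (c ⁻¹' {i}) := by
  obtain ⟨p, T, h1, h2⟩ := Pool.Agent.Lib.MP_eb34a4_co.SC.limit_point c hc
  obtain ⟨T', h3, h4⟩ := Finset.exists_subset_card_eq (s := T) (n := Module.finrank ℝ E + 1) h1
  exact ⟨p, T', h4, fun i hi => h2 i (h3 hi)⟩

/-- The chromatic number of the unit distance graph is at least the dimension plus one. -/
theorem chromaticNumber_ge (E : Type) [NormedAddCommGroup E] [NormedSpace ℝ E]
    [FiniteDimensional ℝ E] :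
    ((Module.finrank ℝ E + 1 : ℕ) : ℕ∞) ≤
      (SimpleGraph.fromRel fun x y : E => ‖x - y‖ = 1).chromaticNumber := by
  refine SimpleGraph.le_chromaticNumber_iff_colorable.2 fun k hk => ?_
  obtain ⟨C⟩ := hk
  obtain ⟨p, T, h1, -⟩ := result E k C fun x y h => C.valid (by
    refine (SimpleGraph.fromRel_adj _ _ _).2 ⟨fun e => ?_, Or.inl h⟩
    rw [e, sub_self, norm_zero] at h
    exact zero_ne_one h)
  have := Finset.card_le_univ T
  rw [Fintype.card_fin] at this
  omega

end Pool.Agent.Results.MP_eb34a4_co.EveryNormLower
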