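import Pool.Agent.Lib.MP_eb34a4_co.DP.Main

/-! Every norm on a real vector space of dimension `d ≥ 2` has a unit distance graph of chromatic
number at least `d + 2` (no measurability assumed). -/

namespace Pool.Agent.Results.MP_eb34a4_co.EveryNormTwo

theorem result (E : Type) [NormedAddCommGroup E] [NormedSpace ℝ E] [FiniteDimensional ℝ E]
    (hd : 2 ≤ Module.finrank ℝ E) (k : ℕ) (c : E → Fin k)
    (hc : ∀ x y : E, ‖x - y‖ = 1 → c x ≠ c y) : Module.finrank ℝ E + 2 ≤ k :=
  Pool.Agent.Lib.MP_eb34a4_co.DP.main hd k c hc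

/-- The chromatic number of the unit distance graph is at least the dimension plus two. -/
theorem chromaticNumber_ge (E : Type) [NormedAddCommGroup E] [NormedSpace ℝ E]
    [FiniteDimensional ℝ E] (hd : 2 ≤ Module.finrank ℝ E) :
    ((Module.finrank ℝ E + 2 : ℕ) : ℕ∞) ≤
      (SimpleGraph.fromRel fun x y : E => ‖x - y‖ = 1).chromaticNumber := by
  refine SimpleGraph.le_chromaticNumber_iff_colorable.2 fun k hk => ?_
  obtain ⟨C⟩ := hk
  exact result E hd k C fun x y h => C.valid (by
    refine (SimpleGraph.fromRel_adj _ _ _).2 ⟨fun e => ?_, Or.inl h⟩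
    rw [e, sub_self, norm_zero] at h
    exact zero_ne_one h)

end Pool.Agent.Results.MP_eb34a4_co.EveryNormTwo
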