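import Pool.Agent.Lib.MP_eb34a4_co.UP.Main

/-! Every norm on a real vector space of dimension `d ≥ 1` has a unit distance graph of chromatic
number at most `4 d log (4 d) 3 ^ d + 1`, by a colouring with Borel colour classes. -/

namespace Pool.Agent.Results.MP_eb34a4_co.EveryNormUpper

theorem result (E : Type) [NormedAddCommGroup E] [NormedSpace ℝ E] [FiniteDimensional ℝ E]
    [MeasurableSpace E] [BorelSpace E] (d : ℕ) (hd : Module.finrank ℝ E = d) (h1 : 1 ≤ d) :
    ∃ k : ℕ, (k : ℝ) ≤ 4 * d * Real.log (4 * d) * 3 ^ d + 1 ∧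
      ∃ c : E → Fin k, (∀ i, MeasurableSet (c ⁻¹' {i})) ∧
        ∀ x y : E, ‖x - y‖ = 1 → c x ≠ c y := by
  subst hd
  exact Pool.Agent.Lib.MP_eb34a4_co.UP.main E h1

/-- The same bound for the chromatic number of the unit distance graph. -/
theorem chromaticNumber_le (E : Type) [NormedAddCommGroup E] [NormedSpace ℝ E]
    [FiniteDimensional ℝ E] (d : ℕ) (hd : Module.finrank ℝ E = d) (h1 : 1 ≤ d) :
    ∃ k : ℕ, (k : ℝ) ≤ 4 * d * Real.log (4 * d) * 3 ^ d + 1 ∧
      (SimpleGraph.fromRel fun x y : E => ‖x - y‖ = 1).chromaticNumber ≤ k := by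
  let _ : MeasurableSpace E := borel E
  have : BorelSpace E := ⟨rfl⟩
  obtain ⟨k, hk, c, -, hc⟩ := result E d hd h1
  refine ⟨k, hk, SimpleGraph.Colorable.chromaticNumber_le ⟨SimpleGraph.Coloring.mk c ?_⟩⟩
  intro x y h
  exact ((SimpleGraph.fromRel_adj _ _ _).1 h).2.elim (hc x y) fun h' => (hc y x h').symm

end Pool.Agent.Results.MP_eb34a4_co.EveryNormUpper
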