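import Mathlib
import Pool.Agent.Lib.MP_eb34a4_co.Cb.Main

set_option autoImplicit false

open TopologicalSpace MeasureTheory

namespace Pool.Agent.Results.MP_eb34a4_co.MeasurableGap

/-- On an open non-meagre set of norms on a Euclidean space of dimension `d`, every Lebesgue
measurable set with no two points at distance one has upper density at most `1 / 2 ^ d + ε`. -/
theorem result {E : Type} [NormedAddCommGroup E] [InnerProductSpace ℝ E] [FiniteDimensional ℝ E]
    [MeasurableSpace E] [BorelSpace E] (d : ℕ) (hd : 2 ≤ d) (hE : Module.finrank ℝ E = d)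
    (ε : ℝ) (hε : 0 < ε) :
    ∃ O : Set {K : NonemptyCompacts E // Convex ℝ (K : Set E) ∧
        (∀ x ∈ (K : Set E), -x ∈ (K : Set E)) ∧ (0 : E) ∈ interior (K : Set E)},
      IsOpen O ∧ ¬ IsMeagre O ∧ ∀ K ∈ O, ∀ A : Set E, NullMeasurableSet A volume →
        (∀ x ∈ A, ∀ y ∈ A, x - y ∉ frontier (K.1 : Set E)) →
        ∀ᶠ R : ℝ in Filter.atTop, (volume (A ∩ Metric.ball 0 R)).toReal ≤
          (1 / 2 ^ d + ε) * (volume (Metric.ball (0 : E) R)).toReal := by
  obtain ⟨O, h1, h2, h⟩ := Pool.Agent.Lib.MP_eb34a4_co.Cb.main_euclid d hd hE ε hε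
  exact ⟨O, h1, h2, fun K hK => (h K hK).1⟩

/-- The constant is sharp: on the open set of the proof the largest density is `1 / 2 ^ d` up to
`ε` from both sides. -/
theorem sharp {E : Type} [NormedAddCommGroup E] [InnerProductSpace ℝ E] [FiniteDimensional ℝ E]
    [MeasurableSpace E] [BorelSpace E] (d : ℕ) (hd : 2 ≤ d) (hE : Module.finrank ℝ E = d)
    (ε : ℝ) (hε : 0 < ε) :
    ∃ O : Set {K : NonemptyCompacts E // Convex ℝ (K : Set E) ∧
        (∀ x ∈ (K : Set E), -x ∈ (K : Set E)) ∧ (0 : E) ∈ interior (K : Set E)},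
      IsOpen O ∧ ¬ IsMeagre O ∧ ∀ K ∈ O,
        (∀ A : Set E, NullMeasurableSet A volume →
          (∀ x ∈ A, ∀ y ∈ A, x - y ∉ frontier (K.1 : Set E)) →
          ∀ᶠ R : ℝ in Filter.atTop, (volume (A ∩ Metric.ball 0 R)).toReal ≤
            (1 / 2 ^ d + ε) * (volume (Metric.ball (0 : E) R)).toReal) ∧
        ∃ A : Set E, MeasurableSet A ∧ (∀ x ∈ A, ∀ y ∈ A, x - y ∉ frontier (K.1 : Set E)) ∧
          ∀ᶠ R : ℝ in Filter.atTop, (1 / 2 ^ d - ε) * (volume (Metric.ball (0 : E) R)).toReal ≤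
            (volume (A ∩ Metric.ball 0 R)).toReal :=
  Pool.Agent.Lib.MP_eb34a4_co.Cb.main_euclid d hd hE ε hε

/-- Consequence: on such a set no colouring with fewer than `2 ^ d` Lebesgue measurable classes is
proper for the unit distance graph. -/
theorem colouring {E : Type} [NormedAddCommGroup E] [InnerProductSpace ℝ E]
    [FiniteDimensional ℝ E] [MeasurableSpace E] [BorelSpace E] (d : ℕ) (hd : 2 ≤ d)
    (hE : Module.finrank ℝ E = d) :
    ∃ O : Set {K : NonemptyCompacts E // Convex ℝ (K : Set E) ∧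
        (∀ x ∈ (K : Set E), -x ∈ (K : Set E)) ∧ (0 : E) ∈ interior (K : Set E)},
      IsOpen O ∧ ¬ IsMeagre O ∧ ∀ K ∈ O, ∀ m < 2 ^ d, ∀ c : E → Fin m,
        (∀ j, NullMeasurableSet (c ⁻¹' {j}) volume) →
        ∃ x y, x - y ∈ frontier (K.1 : Set E) ∧ c x = c y := by
  have hM : (0 : ℝ) < 2 ^ d := by positivity
  obtain ⟨O, hO, hO', h⟩ := result d hd hE (1 / 2 ^ d / 2 ^ d) (by positivity)
  refine ⟨O, hO, hO', fun K hK m hm =>
    Pool.Agent.Lib.MP_eb34a4_co.MG.main_colour _ _ ?_ (h K hK)⟩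
  have h1 : (m : ℝ) + 1 ≤ 2 ^ d := by exact_mod_cast hm
  rw [← add_div, ← mul_div_assoc, div_lt_one hM, mul_add, mul_one, mul_one_div]
  have h2 : (m : ℝ) / 2 ^ d < 1 := (div_lt_one hM).2 (by linarith)
  linarith

/-- Consequence, with the known linear bound for typical norms: one norm whose unit distance graph
has chromatic number at most `16 d` and no proper measurable colouring with fewer than `2 ^ d`
colours. -/
theorem gap {E : Type} [NormedAddCommGroup E] [InnerProductSpace ℝ E]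
    [FiniteDimensional ℝ E] [MeasurableSpace E] [BorelSpace E] (d : ℕ) (hd : 2 ≤ d)
    (hE : Module.finrank ℝ E = d) :
    ∃ K : {K : NonemptyCompacts E // Convex ℝ (K : Set E) ∧
        (∀ x ∈ (K : Set E), -x ∈ (K : Set E)) ∧ (0 : E) ∈ interior (K : Set E)},
      (SimpleGraph.fromRel (fun x y : E => x - y ∈ frontier (K.1 : Set E))).Colorable (16 * d) ∧
      ∀ m < 2 ^ d, ∀ c : E → Fin m, (∀ j, NullMeasurableSet (c ⁻¹' {j}) volume) →
        ∃ x y, x - y ∈ frontier (K.1 : Set E) ∧ c x = c y := by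
  obtain ⟨O, -, hO, h⟩ := colouring d hd hE
  let _ : Module ℚ E := Module.compHom E (algebraMap ℚ ℝ)
  by_contra hcon
  refine hO ((Pool.Agent.Lib.MP_eb34a4_co.meagre_dense_relations (E := E)).mono ?_)
  intro K hK hgood
  rw [hE] at hgood
  exact hcon ⟨K, Pool.Agent.Lib.MP_eb34a4_co.colorable_of_density _ d (by omega) hgood, h K hK⟩

/-- The earlier, weaker form. -/
theorem earlier {E : Type} [NormedAddCommGroup E] [InnerProductSpace ℝ E] [FiniteDimensional ℝ E]
    [MeasurableSpace E] [BorelSpace E] (n : ℕ) (hn : 1 ≤ n) (hE : Module.finrank ℝ E = n + 1)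
    (ε : ℝ) (hε : 0 < ε) :
    ∃ O : Set {K : NonemptyCompacts E // Convex ℝ (K : Set E) ∧
        (∀ x ∈ (K : Set E), -x ∈ (K : Set E)) ∧ (0 : E) ∈ interior (K : Set E)},
      IsOpen O ∧ ¬ IsMeagre O ∧ ∀ K ∈ O, ∀ A : Set E, NullMeasurableSet A volume →
        (∀ x ∈ A, ∀ y ∈ A, x - y ∉ frontier (K.1 : Set E)) →
        ∀ᶠ R : ℝ in Filter.atTop, (volume (A ∩ Metric.ball 0 R)).toReal ≤
          (1 / (2 ^ n + 1) + ε) * (volume (Metric.ball (0 : E) R)).toReal := by
  obtain ⟨O, h1, h2, h⟩ := result (n + 1) (by omega) hE ε hε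
  refine ⟨O, h1, h2, fun K hK A hA hav => (h K hK A hA hav).mono fun R hR => hR.trans ?_⟩
  have h3 : (1 : ℝ) ≤ 2 ^ n := one_le_pow₀ one_le_two
  have h4 : (1 : ℝ) / 2 ^ (n + 1) ≤ 1 / (2 ^ n + 1) :=
    one_div_le_one_div_of_le (by positivity) (by rw [pow_succ]; linarith)
  exact mul_le_mul_of_nonneg_right (by linarith) ENNReal.toReal_nonneg

end Pool.Agent.Results.MP_eb34a4_co.MeasurableGap
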